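import Pool.Agent.Y782.SA.Stm

/-!
Project SA (MP_3ced87_pr), job SA-BML: law of the rescaled Brownian increments.
-/

set_option autoImplicit false
set_option linter.unusedSectionVars false

open MeasureTheory ProbabilityTheory Set Filter Topology
open scoped NNReal ENNReal

namespace Pool.Agent.Y282.SA

open Pool.Agent.Y782.SA

theorem coord_law {Ω : Type} [MeasurableSpace Ω] {P : Measure Ω} [IsProbabilityMeasure P]
    {b : ℝ≥0 → Ω → ℝ} (hb : IsPreBrownianReal b P) (D : ℕ) (hD : 1 ≤ D) (k : ℕ) :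
    HasLaw (fun ω => Real.sqrt D * (b (((k : ℕ) + 1 : ℝ≥0) / D) ω - b ((k : ℝ≥0) / D) ω))
      (gaussianReal 0 1) P := by
  have h := hb.hasLaw_sub (((k : ℕ) + 1 : ℝ≥0) / D) ((k : ℝ≥0) / D)
  have hD0 : (0 : ℝ) < D := by exact_mod_cast hD
  refine ⟨(h.aemeasurable.const_mul _), ?_⟩
  have e : (fun ω => Real.sqrt D * (b (((k : ℕ) + 1 : ℝ≥0) / D) ω - b ((k : ℝ≥0) / D) ω)) =
      (fun x => Real.sqrt D * x) ∘ (b (((k : ℕ) + 1 : ℝ≥0) / D) - b ((k : ℝ≥0) / D)) := rfl
  rw [e, ← AEMeasurable.map_map_of_aemeasurable (by fun_prop) h.aemeasurable, h.map_eq,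
    gaussianReal_map_const_mul, mul_zero]
  congr 1
  rw [← NNReal.coe_inj]
  push_cast
  rw [Real.dist_eq]
  show Real.sqrt D ^ 2 * |(((k : ℕ) + 1 : ℝ≥0) / D : ℝ≥0).1 - ((k : ℝ≥0) / D : ℝ≥0).1| = 1
  have e2 : (((k : ℕ) + 1 : ℝ≥0) / D : ℝ≥0).1 - ((k : ℝ≥0) / D : ℝ≥0).1 = 1 / D := by
    show ((((k : ℕ) + 1 : ℝ≥0) / D : ℝ≥0) : ℝ) - (((k : ℝ≥0) / D : ℝ≥0) : ℝ) = 1 / D
    push_cast
    field_simp
    ring
  rw [e2, Real.sq_sqrt hD0.le, abs_of_pos (by positivity)]
  field_simp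

theorem bml : S_BML := by
  intro Ω _ P _ ι _ b hb hI D n hD
  classical
  have haem : ∀ p : Fin n × ι, AEMeasurable (fun ω => incr (fun α t => b α t ω) D n p) P :=
    fun p => (coord_law (hb p.2) D hD p.1).aemeasurable
  refine ⟨aemeasurable_pi_iff.2 haem, ?_⟩
  symm
  apply Measure.pi_eq
  intro s hs
  rw [Measure.map_apply_of_aemeasurable (aemeasurable_pi_iff.2 haem)
    (MeasurableSet.univ_pi hs)]
  -- the path events
  set B : ι → Set (ℝ≥0 → ℝ) := fun α => ⋂ k : Fin n,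
    {φ | Real.sqrt D * (φ (((k : ℕ) + 1 : ℝ≥0) / D) - φ (((k : ℕ) : ℝ≥0) / D)) ∈ s (k, α)} with hB
  have hBm : ∀ α, MeasurableSet (B α) := by
    intro α
    apply MeasurableSet.iInter
    intro k
    have : Measurable fun φ : ℝ≥0 → ℝ =>
        Real.sqrt D * (φ (((k : ℕ) + 1 : ℝ≥0) / D) - φ (((k : ℕ) : ℝ≥0) / D)) := by fun_prop
    exact this (hs (k, α))
  have e1 : (fun ω => incr (fun α t => b α t ω) D n) ⁻¹' (Set.univ.pi s) =
      ⋂ α ∈ (Finset.univ : Finset ι), (fun ω t => b α t ω) ⁻¹' (B α) := by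
    ext ω
    simp only [mem_preimage, Set.mem_univ_pi, Finset.mem_univ, iInter_true, mem_iInter, hB,
      mem_setOf_eq]
    constructor
    · intro h α k
      exact h (k, α)
    · intro h p
      exact h p.2 p.1
  rw [e1, hI.measure_inter_preimage_eq_mul Finset.univ (fun α _ => hBm α)]
  have e2 : ∀ α, P ((fun ω t => b α t ω) ⁻¹' (B α)) =
      ∏ k : Fin n, (gaussianReal 0 1) (s (k, α)) := by
    intro α
    have hinc := (hb α).hasIndepIncrements n (fun i : Fin (n + 1) => ((i : ℕ) : ℝ≥0) / D) (by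
      intro i j hij
      simp only
      have : ((i : ℕ) : ℝ≥0) ≤ ((j : ℕ) : ℝ≥0) := by exact_mod_cast hij
      gcongr)
    have e3 : (fun ω t => b α t ω) ⁻¹' (B α) = ⋂ k ∈ (Finset.univ : Finset (Fin n)),
        (fun ω => b α (((k.succ : Fin (n + 1)) : ℕ) / D) ω -
          b α (((k.castSucc : Fin (n + 1)) : ℕ) / D) ω) ⁻¹' {x | Real.sqrt D * x ∈ s (k, α)} := by
      ext ω
      simp only [mem_preimage, hB, mem_iInter, mem_setOf_eq, Finset.mem_univ, iInter_true,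
        Fin.val_succ, Fin.val_castSucc, Nat.cast_add, Nat.cast_one]
    have hsm : ∀ k : Fin n, MeasurableSet {x : ℝ | Real.sqrt D * x ∈ s (k, α)} := fun k =>
      (measurable_const_mul (Real.sqrt D)) (hs (k, α))
    rw [e3, hinc.measure_inter_preimage_eq_mul Finset.univ (fun k _ => hsm k)]
    apply Finset.prod_congr rfl
    intro k _
    have hl := coord_law (hb α) D hD k
    have := hl.measure_eq (p := fun x => x ∈ s (k, α)) (hs (k, α))
    simp only [Set.ofPred_mem_eq] at this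
    rw [← this]
    congr 1
    ext ω
    simp only [mem_preimage, mem_setOf_eq, Fin.val_succ, Fin.val_castSucc, Nat.cast_add,
      Nat.cast_one]
  rw [Finset.prod_congr rfl (fun α _ => e2 α)]
  rw [Fintype.prod_prod_type_right]

end Pool.Agent.Y282.SA
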