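import Pool.Agent.Y782.SA.Stm

/-!
Project SA (MP_3ced87_pr): auxiliary facts on test functions.
-/

set_option autoImplicit false
set_option linter.unusedSectionVars false

open MeasureTheory Set Filter Topology

namespace Pool.Agent.Y282.SA

open Pool.Agent.Y782.SA

variable {E : Type} [NormedAddCommGroup E] [InnerProductSpace ℝ E] [FiniteDimensional ℝ E]

/-- a test function and its derivative vanish beyond some integer -/
theorem test_supp {f : ℝ → E} (hf : IsTest f) :
    ∃ J : ℕ, 0 < J ∧ ∀ x : ℝ, (J : ℝ) ≤ x → f x = 0 ∧ deriv f x = 0 := by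
  obtain ⟨R, hR⟩ := hf.2.isCompact.isBounded.subset_closedBall 0
  obtain ⟨J, hJ⟩ := exists_nat_gt (max R 0)
  refine ⟨J, ?_, ?_⟩
  · have : (0 : ℝ) < J := lt_of_le_of_lt (le_max_right R 0) hJ
    exact_mod_cast this
  · intro x hx
    have hx1 : x ∉ tsupport f := by
      intro h
      have h1 := hR h
      rw [Metric.mem_closedBall, dist_zero_right, Real.norm_eq_abs] at h1
      have h2 := le_abs_self x
      have h3 := le_max_left R 0
      linarith
    constructor
    · exact image_eq_zero_of_notMem_tsupport hx1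
    · by_contra hn
      exact hx1 (support_deriv_subset hn)

theorem test_cont {f : ℝ → E} (hf : IsTest f) : Continuous f := hf.1.continuous

theorem test_dcont {f : ℝ → E} (hf : IsTest f) : Continuous (deriv f) :=
  hf.1.continuous_deriv le_rfl

theorem test_diff {f : ℝ → E} (hf : IsTest f) (x : ℝ) : HasDerivAt f (deriv f x) x :=
  (hf.1.differentiable one_ne_zero x).hasDerivAt

theorem ioi_eq {J : ℕ} {g : ℝ → ℝ} (hg : ∀ x : ℝ, (J : ℝ) < x → g x = 0) :
    ∫ x in Ioi (0 : ℝ), g x = ∫ x in (0 : ℝ)..J, g x := by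
  rw [intervalIntegral.integral_of_le (Nat.cast_nonneg J)]
  apply setIntegral_eq_of_subset_of_forall_diff_eq_zero measurableSet_Ioi
  · intro x hx
    exact hx.1
  · intro x hx
    apply hg
    by_contra hn
    exact hx.2 ⟨hx.1, not_lt.1 hn⟩

/-- measurability of the mixed term -/
theorem mix_meas {W : ℝ → E →L[ℝ] E} (hW : StronglyMeasurable W) {f g : ℝ → E}
    (hf : Continuous f) (hg : Continuous g) :
    StronglyMeasurable fun x => inner ℝ (f x) (W x (g x)) := by
  have h1 : StronglyMeasurable fun x => W x (g x) :=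
    (isBoundedBilinearMap_apply (𝕜 := ℝ) (E := E) (F := E)).continuous.comp_stronglyMeasurable
      (hW.prodMk hg.stronglyMeasurable)
  exact hf.stronglyMeasurable.inner h1

/-- local integrability of the mixed term -/
theorem mix_int {W : ℝ → E →L[ℝ] E} (hW : GoodW W) {f g : ℝ → E}
    (hf : Continuous f) (hg : Continuous g) (a b : ℝ) (ha : 0 ≤ a) (hb : 0 ≤ b) :
    IntervalIntegrable (fun x => inner ℝ (f x) (W x (g x))) volume a b := by
  obtain ⟨B, hB⟩ := hW.bdd (max a b)
  have hc : Continuous fun x => ‖f x‖ * (|B| * ‖g x‖) :=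
    hf.norm.mul (continuous_const.mul hg.norm)
  apply (hc.intervalIntegrable a b).mono_fun (mix_meas hW.meas hf hg).aestronglyMeasurable
  rw [EventuallyLE, ae_restrict_iff' measurableSet_uIoc]
  refine Eventually.of_forall fun x hx => ?_
  have hx' : x ∈ Icc 0 (max a b) := by
    rcases hx with ⟨h1, h2⟩
    refine ⟨?_, h2⟩
    have : (0 : ℝ) ≤ min a b := le_min ha hb
    exact this.trans h1.le
  have h1 : ‖inner ℝ (f x) (W x (g x))‖ ≤ ‖f x‖ * ‖W x (g x)‖ := norm_inner_le_norm _ _
  have h2 : ‖W x (g x)‖ ≤ ‖W x‖ * ‖g x‖ := (W x).le_opNorm _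
  have h3 : ‖W x‖ ≤ |B| := (hB x hx').trans (le_abs_self B)
  have h4 : ‖f x‖ * ‖W x (g x)‖ ≤ ‖f x‖ * (|B| * ‖g x‖) := by
    apply mul_le_mul_of_nonneg_left _ (norm_nonneg _)
    exact h2.trans (mul_le_mul_of_nonneg_right h3 (norm_nonneg _))
  calc ‖inner ℝ (f x) (W x (g x))‖ ≤ ‖f x‖ * (|B| * ‖g x‖) := h1.trans h4
    _ ≤ ‖‖f x‖ * (|B| * ‖g x‖)‖ := le_abs_self _

end Pool.Agent.Y282.SA
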