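import Pool.Agent.Y282.SA.Base

/-!
Project SA (MP_3ced87_pr), job SA-CUT: cutting off test functions (IMS localisation).
-/

set_option autoImplicit false
set_option linter.unusedSectionVars false

open MeasureTheory Set Filter Topology

namespace Pool.Agent.Y282.SA

open Pool.Agent.Y782.SA

variable {E : Type} [NormedAddCommGroup E] [InnerProductSpace ℝ E] [FiniteDimensional ℝ E]

/-! ### the cut-off functions -/

noncomputable def th0 (x : ℝ) : ℝ := Real.pi / 2 * Real.smoothTransition x

theorem th0_cd : ContDiff ℝ 1 th0 := contDiff_const.mul Real.smoothTransition.contDiff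

theorem th0_d (x : ℝ) : HasDerivAt th0 (deriv th0 x) x :=
  (th0_cd.differentiable one_ne_zero x).hasDerivAt

theorem th0_dc : Continuous (deriv th0) := th0_cd.continuous_deriv le_rfl

theorem th0_dneg {x : ℝ} (hx : x < 0) : deriv th0 x = 0 := by
  have h : th0 =ᶠ[𝓝 x] fun _ => 0 := by
    filter_upwards [Iio_mem_nhds hx] with y hy
    unfold th0
    rw [Real.smoothTransition.zero_of_nonpos (le_of_lt hy), mul_zero]
  rw [h.deriv_eq, deriv_const]

theorem th0_dpos {x : ℝ} (hx : 1 < x) : deriv th0 x = 0 := by
  have h : th0 =ᶠ[𝓝 x] fun _ => Real.pi / 2 := by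
    filter_upwards [Ioi_mem_nhds hx] with y hy
    unfold th0
    rw [Real.smoothTransition.one_of_one_le (le_of_lt hy), mul_one]
  rw [h.deriv_eq, deriv_const]

theorem th0_bd : ∃ c₀ : ℝ, 0 ≤ c₀ ∧ ∀ x, deriv th0 x ^ 2 ≤ c₀ := by
  obtain ⟨M, hM⟩ := (isCompact_Icc (a := (0 : ℝ)) (b := 1)).exists_bound_of_continuousOn
    th0_dc.continuousOn
  refine ⟨M ^ 2, sq_nonneg M, fun x => ?_⟩
  by_cases h0 : x < 0
  · rw [th0_dneg h0]
    simpa using sq_nonneg M
  by_cases h1 : 1 < x
  · rw [th0_dpos h1]
    simpa using sq_nonneg M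
  · have := hM x ⟨not_lt.1 h0, not_lt.1 h1⟩
    rw [Real.norm_eq_abs] at this
    have h2 : |deriv th0 x| ^ 2 ≤ M ^ 2 := pow_le_pow_left₀ (abs_nonneg _) this 2
    rwa [sq_abs] at h2

/-- the angle -/
noncomputable def th (L x : ℝ) : ℝ := th0 (x - (L - 1))

noncomputable def thd (L x : ℝ) : ℝ := deriv th0 (x - (L - 1))

theorem th_cd (L : ℝ) : ContDiff ℝ 1 (th L) := th0_cd.comp (contDiff_id.sub contDiff_const)

theorem th_d (L x : ℝ) : HasDerivAt (th L) (thd L x) x := by
  have h := (th0_d (x - (L - 1))).comp_sub_const x (L - 1)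
  exact h

theorem thd_c (L : ℝ) : Continuous (thd L) := th0_dc.comp (continuous_id.sub continuous_const)

theorem th_zero {L x : ℝ} (hx : x ≤ L - 1) : th L x = 0 := by
  unfold th th0
  rw [Real.smoothTransition.zero_of_nonpos (by linarith), mul_zero]

theorem th_one {L x : ℝ} (hx : L ≤ x) : th L x = Real.pi / 2 := by
  unfold th th0
  rw [Real.smoothTransition.one_of_one_le (by linarith), mul_one]

/-! ### integrability -/

theorem ioi_int {J : ℕ} {g : ℝ → ℝ} (hg : ∀ x : ℝ, (J : ℝ) < x → g x = 0)
    (hi : IntervalIntegrable g volume 0 J) : IntegrableOn g (Ioi (0 : ℝ)) := by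
  have h1 : IntegrableOn g (Ioc (0 : ℝ) J) :=
    (intervalIntegrable_iff_integrableOn_Ioc_of_le (Nat.cast_nonneg J)).1 hi
  apply h1.of_forall_diff_eq_zero measurableSet_Ioi
  intro x hx
  apply hg
  by_contra hn
  exact hx.2 ⟨hx.1, not_lt.1 hn⟩

theorem int_c {J : ℕ} {g : ℝ → ℝ} (hg : ∀ x : ℝ, (J : ℝ) < x → g x = 0)
    (hc : Continuous g) : IntegrableOn g (Ioi (0 : ℝ)) := ioi_int hg (hc.intervalIntegrable _ _)

/-- multiplication of a test function by a `C¹` function -/
theorem mul_test {χ : ℝ → ℝ} (hχ : ContDiff ℝ 1 χ) {f : ℝ → E} (hf : IsTest f) :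
    IsTest (fun x => χ x • f x) :=
  ⟨hχ.smul hf.1, hf.2.smul_left (f := χ)⟩

theorem mul_test_d {χ : ℝ → ℝ} {χ' : ℝ} {x : ℝ} (hχ : HasDerivAt χ χ' x) {f : ℝ → E}
    (hf : IsTest f) : deriv (fun x => χ x • f x) x = χ x • deriv f x + χ' • f x :=
  (hχ.smul (test_diff hf x)).deriv

theorem cut : S_CUT := by
  obtain ⟨c₀, hc₀, hbd⟩ := th0_bd
  refine ⟨c₀, hc₀, ?_⟩
  intro E _ _ _ κ C S W hκ hC hW hLB k s L hs hL hsL
  obtain ⟨φ, hφ, hφs⟩ := hs
  have hχc : ContDiff ℝ 1 (fun x => Real.cos (th L x)) := Real.contDiff_cos.comp (th_cd L)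
  have hηc : ContDiff ℝ 1 (fun x => Real.sin (th L x)) := Real.contDiff_sin.comp (th_cd L)
  refine ⟨fun i x => Real.cos (th L x) • φ i x, ?_, ?_⟩
  · intro i
    refine ⟨mul_test hχc (hφ i), fun x hx => ?_⟩
    simp only
    rw [th_one hx, Real.cos_pi_div_two, zero_smul]
  · intro c hc
    obtain ⟨hN, hF⟩ := hφs c hc
    set f : ℝ → E := ∑ i, c i • φ i with hf
    have hft : IsTest f := (tst E).sum_mem fun i _ => (tst E).smul_mem (c i) (hφ i)
    have hsum : (∑ i, c i • (fun x => Real.cos (th L x) • φ i x)) =
        fun x => Real.cos (th L x) • f x := by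
      funext x
      rw [hf]
      simp only [Finset.sum_apply, Pi.smul_apply, Finset.smul_sum]
      apply Finset.sum_congr rfl
      intro i _
      rw [smul_comm]
    rw [hsum]
    obtain ⟨J, hJ, h0⟩ := test_supp hft
    have hfc := test_cont hft
    have hfd := test_dcont hft
    have hχt := mul_test hχc hft
    have hηt := mul_test hηc hft
    have hχd : ∀ x, deriv (fun x => Real.cos (th L x) • f x) x =
        Real.cos (th L x) • deriv f x + (-Real.sin (th L x) * thd L x) • f x := fun x =>
      mul_test_d (th_d L x).cos hft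
    have hηd : ∀ x, deriv (fun x => Real.sin (th L x) • f x) x =
        Real.sin (th L x) • deriv f x + (Real.cos (th L x) * thd L x) • f x := fun x =>
      mul_test_d (th_d L x).sin hft
    have hcc : Continuous fun x => Real.cos (th L x) := hχc.continuous
    have hsc : Continuous fun x => Real.sin (th L x) := hηc.continuous
    have htc := thd_c L
    have hL1 : 0 < L - 1 := by linarith
    -- the pieces of the identity
    have i_n : nsq (fun x => Real.cos (th L x) • f x) + nsq (fun x => Real.sin (th L x) • f x) =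
        nsq f := by
      unfold nsq
      rw [← integral_add]
      · apply setIntegral_congr_fun measurableSet_Ioi
        intro x _
        simp only [norm_smul, mul_pow, Real.norm_eq_abs, sq_abs]
        have := Real.sin_sq_add_cos_sq (th L x)
        linear_combination ‖f x‖ ^ 2 * this
      · apply int_c (J := J) (fun x hx => by simp [(h0 x hx.le).1])
        exact (hcc.smul hfc).norm.pow 2
      · apply int_c (J := J) (fun x hx => by simp [(h0 x hx.le).1])
        exact (hsc.smul hfc).norm.pow 2
    have i_x : xsq (fun x => Real.cos (th L x) • f x) + xsq (fun x => Real.sin (th L x) • f x) =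
        xsq f := by
      unfold xsq
      rw [← integral_add]
      · apply setIntegral_congr_fun measurableSet_Ioi
        intro x _
        simp only [norm_smul, mul_pow, Real.norm_eq_abs, sq_abs]
        have := Real.sin_sq_add_cos_sq (th L x)
        linear_combination (x * ‖f x‖ ^ 2) * this
      · apply int_c (J := J) (fun x hx => by simp [(h0 x hx.le).1])
        exact continuous_id.mul ((hcc.smul hfc).norm.pow 2)
      · apply int_c (J := J) (fun x hx => by simp [(h0 x hx.le).1])
        exact continuous_id.mul ((hsc.smul hfc).norm.pow 2)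
    have i_d : dsq (fun x => Real.cos (th L x) • f x) + dsq (fun x => Real.sin (th L x) • f x) =
        dsq f + ∫ x in Ioi (0 : ℝ), thd L x ^ 2 * ‖f x‖ ^ 2 := by
      unfold dsq
      rw [← integral_add, ← integral_add]
      · apply setIntegral_congr_fun measurableSet_Ioi
        intro x _
        simp only
        rw [hχd, hηd, ← real_inner_self_eq_norm_sq, ← real_inner_self_eq_norm_sq,
          ← real_inner_self_eq_norm_sq, ← real_inner_self_eq_norm_sq]
        simp only [inner_add_left, inner_add_right, real_inner_smul_left, real_inner_smul_right]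
        rw [real_inner_comm (deriv f x) (f x)]
        have := Real.sin_sq_add_cos_sq (th L x)
        linear_combination (inner ℝ (deriv f x) (deriv f x) +
          thd L x ^ 2 * inner ℝ (f x) (f x)) * this
      · apply int_c (J := J) (fun x hx => by rw [(h0 x hx.le).2]; simp)
        exact hfd.norm.pow 2
      · apply int_c (J := J) (fun x hx => by simp [(h0 x hx.le).1])
        exact (htc.pow 2).mul (hfc.norm.pow 2)
      · apply int_c (J := J) (fun x hx => by rw [hχd, (h0 x hx.le).1, (h0 x hx.le).2]; simp)
        exact (test_dcont hχt).norm.pow 2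
      · apply int_c (J := J) (fun x hx => by rw [hηd, (h0 x hx.le).1, (h0 x hx.le).2]; simp)
        exact (test_dcont hηt).norm.pow 2
    have i_w : (∫ x in Ioi (0 : ℝ), inner ℝ (deriv (fun x => Real.cos (th L x) • f x) x)
          (W x (Real.cos (th L x) • f x))) +
        (∫ x in Ioi (0 : ℝ), inner ℝ (deriv (fun x => Real.sin (th L x) • f x) x)
          (W x (Real.sin (th L x) • f x))) =
        ∫ x in Ioi (0 : ℝ), inner ℝ (deriv f x) (W x (f x)) := by
      rw [← integral_add]
      · apply setIntegral_congr_fun measurableSet_Ioi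
        intro x _
        simp only
        rw [hχd, hηd, map_smul, map_smul]
        simp only [inner_add_left, real_inner_smul_left, real_inner_smul_right]
        have := Real.sin_sq_add_cos_sq (th L x)
        linear_combination (inner ℝ (deriv f x) (W x (f x))) * this
      · apply ioi_int (J := J) (fun x hx => by simp [(h0 x hx.le).1])
        exact mix_int hW (test_dcont hχt) (hcc.smul hfc) _ _ le_rfl (Nat.cast_nonneg J)
      · apply ioi_int (J := J) (fun x hx => by simp [(h0 x hx.le).1])
        exact mix_int hW (test_dcont hηt) (hsc.smul hfc) _ _ le_rfl (Nat.cast_nonneg J)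
    have hth0 : th L 0 = 0 := th_zero (by linarith)
    have i_form : form κ S W (fun x => Real.cos (th L x) • f x) +
        form κ S W (fun x => Real.sin (th L x) • f x) =
        form κ S W f + ∫ x in Ioi (0 : ℝ), thd L x ^ 2 * ‖f x‖ ^ 2 := by
      unfold form
      simp only [hth0, Real.cos_zero, Real.sin_zero, one_smul, zero_smul, map_zero, inner_zero_left]
      linear_combination i_d + κ * i_x - 2 * i_w
    -- positivity
    have hdn : ∀ g : ℝ → E, 0 ≤ dsq g := fun g =>
      setIntegral_nonneg measurableSet_Ioi fun x _ => sq_nonneg _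
    have hxn : ∀ g : ℝ → E, 0 ≤ xsq g := fun g =>
      setIntegral_nonneg measurableSet_Ioi fun x hx => mul_nonneg (le_of_lt hx) (sq_nonneg _)
    have hnn : ∀ g : ℝ → E, 0 ≤ nsq g := fun g =>
      setIntegral_nonneg measurableSet_Ioi fun x _ => sq_nonneg _
    -- mass beyond `L - 1`
    have b1 : nsq (fun x => Real.sin (th L x) • f x) ≤ xsq f / (L - 1) := by
      unfold nsq xsq
      rw [← integral_div]
      apply setIntegral_mono_on
      · apply int_c (J := J) (fun x hx => by simp [(h0 x hx.le).1])
        exact (hsc.smul hfc).norm.pow 2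
      · apply int_c (J := J) (fun x hx => by simp [(h0 x hx.le).1])
        exact (continuous_id.mul (hfc.norm.pow 2)).div_const _
      · exact measurableSet_Ioi
      · intro x hx
        have hx0 : (0 : ℝ) < x := hx
        simp only [norm_smul, mul_pow, Real.norm_eq_abs, sq_abs]
        by_cases hxL : x ≤ L - 1
        · rw [th_zero hxL, Real.sin_zero]
          have : 0 ≤ x * ‖f x‖ ^ 2 / (L - 1) := by positivity
          simpa using this
        · have h1 : Real.sin (th L x) ^ 2 ≤ 1 := Real.sin_sq_le_one _
          have h2 : 1 ≤ x / (L - 1) := by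
            rw [le_div_iff₀ hL1]
            linarith
          calc Real.sin (th L x) ^ 2 * ‖f x‖ ^ 2 ≤ (x / (L - 1)) * ‖f x‖ ^ 2 :=
                mul_le_mul_of_nonneg_right (h1.trans h2) (sq_nonneg _)
            _ = x * ‖f x‖ ^ 2 / (L - 1) := by ring
    have b2 : ∫ x in Ioi (0 : ℝ), thd L x ^ 2 * ‖f x‖ ^ 2 ≤ c₀ * (xsq f / (L - 1)) := by
      unfold xsq
      rw [← integral_div, ← integral_const_mul]
      apply setIntegral_mono_on
      · apply int_c (J := J) (fun x hx => by simp [(h0 x hx.le).1])
        exact (htc.pow 2).mul (hfc.norm.pow 2)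
      · apply int_c (J := J) (fun x hx => by simp [(h0 x hx.le).1])
        exact continuous_const.mul ((continuous_id.mul (hfc.norm.pow 2)).div_const _)
      · exact measurableSet_Ioi
      · intro x hx
        have hx0 : (0 : ℝ) < x := hx
        by_cases hxL : x < L - 1
        · have : thd L x = 0 := th0_dneg (by linarith)
          rw [this]
          have : 0 ≤ c₀ * (x * ‖f x‖ ^ 2 / (L - 1)) := by positivity
          simpa using this
        · have h1 : thd L x ^ 2 ≤ c₀ := hbd _
          have h2 : 1 ≤ x / (L - 1) := by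
            rw [le_div_iff₀ hL1]
            linarith
          have h3 : c₀ ≤ c₀ * (x / (L - 1)) := by
            nlinarith
          calc thd L x ^ 2 * ‖f x‖ ^ 2 ≤ (c₀ * (x / (L - 1))) * ‖f x‖ ^ 2 :=
                mul_le_mul_of_nonneg_right (h1.trans h3) (sq_nonneg _)
            _ = c₀ * (x * ‖f x‖ ^ 2 / (L - 1)) := by ring
    -- numbers
    have hlb := hLB f hft
    have hlbη := hLB _ hηt
    have hκL : 0 < κ * L := by positivity
    set N := nsq f with hNdef
    set ε : ℝ := 4 * (|s| + C) / (κ * L) with hε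
    have hε0 : 0 ≤ ε := by positivity
    have hε1 : ε ≤ 1 / 2 := by
      rw [hε, div_le_iff₀ hκL]
      linarith
    have hx1 : κ * xsq f ≤ 2 * (|s| + C) * N := by
      have h1 := hdn f
      have h2 : κ * xsq f ≤ 2 * (form κ S W f + C * N) := by linarith
      have h3 : s * N ≤ |s| * N := mul_le_mul_of_nonneg_right (le_abs_self s) hN.le
      nlinarith
    have hx2 : xsq f / (L - 1) ≤ ε * N := by
      have h1 : xsq f ≤ 2 * (|s| + C) * N / κ := by
        rw [le_div_iff₀ hκ]
        linarith
      have h2 : ε * N = (2 * (|s| + C) * N / κ) * (2 / L) := by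
        rw [hε]
        field_simp
        ring
      rw [h2, div_le_iff₀ hL1]
      have h3 : 1 ≤ 2 / L * (L - 1) := by
        rw [div_mul_eq_mul_div, le_div_iff₀ (by linarith)]
        linarith
      have h4 : 0 ≤ 2 * (|s| + C) * N / κ := by positivity
      calc xsq f ≤ 2 * (|s| + C) * N / κ := h1
        _ ≤ 2 * (|s| + C) * N / κ * (2 / L * (L - 1)) := le_mul_of_one_le_right h4 h3
        _ = _ := by ring
    set Nη := nsq (fun x => Real.sin (th L x) • f x) with hNη
    set Nχ := nsq (fun x => Real.cos (th L x) • f x) with hNχ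
    have hη1 : Nη ≤ ε * N := b1.trans hx2
    have hη0 : 0 ≤ Nη := hnn _
    have hχ1 : (1 - ε) * N ≤ Nχ := by linarith
    have hχ2 : Nχ ≤ N := by linarith
    have hT : ∫ x in Ioi (0 : ℝ), thd L x ^ 2 * ‖f x‖ ^ 2 ≤ c₀ * (ε * N) :=
      b2.trans (mul_le_mul_of_nonneg_left hx2 hc₀)
    have hη2 : -(C * (ε * N)) ≤ form κ S W (fun x => Real.sin (th L x) • f x) := by
      have h1 := hdn (fun x => Real.sin (th L x) • f x)
      have h2 := hxn (fun x => Real.sin (th L x) • f x)
      have h3 := mul_nonneg hκ.le h2
      have h4 := mul_le_mul_of_nonneg_left hη1 hC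
      linarith
    have hfχ : form κ S W (fun x => Real.cos (th L x) • f x) ≤ (s + (c₀ + C) * ε) * N := by
      have : form κ S W (fun x => Real.cos (th L x) • f x) =
          form κ S W f + (∫ x in Ioi (0 : ℝ), thd L x ^ 2 * ‖f x‖ ^ 2) -
          form κ S W (fun x => Real.sin (th L x) • f x) := by linarith
      rw [this]
      nlinarith
    refine ⟨?_, ?_⟩
    · nlinarith
    · have e1 : s + 8 * (|s| + C) * (c₀ + C + |s|) / (κ * L) =
          s + 2 * ((c₀ + C) * ε) + 2 * (ε * |s|) := by
        rw [hε]
        ring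
      rw [e1]
      refine hfχ.trans ?_
      set s' := s + 2 * ((c₀ + C) * ε) + 2 * (ε * |s|) with hs'
      have hδ : 0 ≤ (c₀ + C) * ε := by positivity
      have hεs : 0 ≤ ε * |s| := by positivity
      rcases le_total 0 s' with h | h
      · have h1 : (s + (c₀ + C) * ε) ≤ s' * (1 - ε) := by
          have a1 : s * ε ≤ |s| * ε := mul_le_mul_of_nonneg_right (le_abs_self s) hε0
          have a2 : (c₀ + C) * ε * ε ≤ (c₀ + C) * ε * (1 / 2) :=
            mul_le_mul_of_nonneg_left hε1 hδ
          have a3 : ε * |s| * ε ≤ ε * |s| * (1 / 2) := mul_le_mul_of_nonneg_left hε1 hεs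
          rw [hs']
          nlinarith
        calc (s + (c₀ + C) * ε) * N ≤ s' * (1 - ε) * N :=
              mul_le_mul_of_nonneg_right h1 hN.le
          _ = s' * ((1 - ε) * N) := by ring
          _ ≤ s' * Nχ := mul_le_mul_of_nonneg_left hχ1 h
      · have h1 : (s + (c₀ + C) * ε) * N ≤ s' * N := by
          apply mul_le_mul_of_nonneg_right _ hN.le
          rw [hs']
          linarith
        refine h1.trans ?_
        exact mul_le_mul_of_nonpos_left hχ2 h

end Pool.Agent.Y282.SA
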