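import Pool.Agent.Y782.SA.Stm

/-!
Project SA (MP_3ced87_pr), job SA-FIN: the roughness constant of the Brownian path is almost surely
finite.
-/

set_option autoImplicit false
set_option linter.unusedSectionVars false

open MeasureTheory ProbabilityTheory Set Filter Topology
open scoped NNReal ENNReal

namespace Pool.Agent.Y282.SA

open Pool.Agent.Y782.SA

/-- bounded fourth moments: almost surely the variables are bounded along a subsequence -/
theorem liminf_bd {Ω : Type} [MeasurableSpace Ω] {P : Measure Ω} (Y : ℕ → Ω → ℝ)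
    (hY : ∀ d, AEMeasurable (Y d) P) (hY0 : ∀ d ω, 0 ≤ Y d ω) (K : ℝ)
    (hK : ∀ d, ∫⁻ ω, ENNReal.ofReal (Y d ω ^ 4) ∂P ≤ ENNReal.ofReal K) :
    ∀ᵐ ω ∂P, ∃ C : ℝ, 0 ≤ C ∧ ∃ᶠ d in atTop, Y d ω ≤ C := by
  have hg : ∀ d, AEMeasurable (fun ω => ENNReal.ofReal (Y d ω ^ 4)) P := fun d =>
    ((hY d).pow_const 4).ennreal_ofReal
  have h1 : ∫⁻ ω, liminf (fun d => (hg d).mk _ ω) atTop ∂P ≤ ENNReal.ofReal K := by
    refine (lintegral_liminf_le' (fun d => (hg d).measurable_mk.aemeasurable)).trans ?_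
    have h2 : ∀ d, ∫⁻ ω, (hg d).mk _ ω ∂P ≤ ENNReal.ofReal K := by
      intro d
      rw [← lintegral_congr_ae (hg d).ae_eq_mk]
      exact hK d
    refine (liminf_le_liminf (Eventually.of_forall h2)).trans ?_
    rw [liminf_const]
  have h2 : Measurable fun ω => liminf (fun d => (hg d).mk _ ω) atTop :=
    Measurable.liminf fun d => (hg d).measurable_mk
  have h3 : ∀ᵐ ω ∂P, liminf (fun d => (hg d).mk _ ω) atTop < ∞ :=
    ae_lt_top' h2.aemeasurable (ne_top_of_le_ne_top ENNReal.ofReal_ne_top h1)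
  have h4 : ∀ᵐ ω ∂P, ∀ d, ENNReal.ofReal (Y d ω ^ 4) = (hg d).mk _ ω :=
    ae_all_iff.2 fun d => (hg d).ae_eq_mk
  filter_upwards [h3, h4] with ω h3 h4
  obtain ⟨c, hc1, hc2⟩ := exists_between h3
  have h5 := frequently_lt_of_liminf_lt (by isBoundedDefault) hc1
  refine ⟨max 1 c.toReal, le_trans zero_le_one (le_max_left _ _), h5.mono fun d hd => ?_⟩
  rw [← h4 d] at hd
  have h6 : Y d ω ^ 4 ≤ c.toReal := by
    rw [← ENNReal.ofReal_le_ofReal_iff ENNReal.toReal_nonneg, ENNReal.ofReal_toReal hc2.ne]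
    exact hd.le
  rcases le_total (Y d ω) 1 with h | h
  · exact h.trans (le_max_left _ _)
  · have h7 : Y d ω ≤ Y d ω ^ 4 := le_self_pow₀ h (by norm_num)
    exact (h7.trans h6).trans (le_max_right _ _)

theorem path_cont {E : Type} [NormedAddCommGroup E] [InnerProductSpace ℝ E]
    {ι : Type} [Fintype ι] (A : ι → E →L[ℝ] E) (b : ι → ℝ≥0 → ℝ) (hb : ∀ α, Continuous (b α)) :
    Continuous (path A b) := by
  unfold path
  apply continuous_finset_sum
  intro α _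
  exact ((hb α).comp continuous_real_toNNReal).smul continuous_const

theorem fin (hM : S_MOM) (hB : S_BML) (hD : S_DCONV) : S_FIN := by
  intro E _ _ _ ι _ A κ hκ hA Ω _ P _ b hb hI
  obtain ⟨K, hK0, hK⟩ := hM E ι A κ hκ
  have hb' : ∀ α, IsPreBrownianReal (b α) P := fun α => (hb α).toIsPreBrownianReal
  choose C hCm hC0 hCr hCi using fun d : ℕ => hK (d + 1) ((d + 1) ^ 2) (Nat.le_add_left 1 d)
  have hlaw := fun d : ℕ => hB Ω P ι b hb' hI (d + 1) ((d + 1) ^ 2) (Nat.le_add_left 1 d)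
  have hae := liminf_bd (P := P)
    (fun d ω => C d (incr (fun α t => b α t ω) (d + 1) ((d + 1) ^ 2)))
    (fun d => (hCm d).comp_aemeasurable (hlaw d).aemeasurable)
    (fun d ω => hC0 d _) K (fun d => by
      have h1 : Measurable fun ξ : Fin ((d + 1) ^ 2) × ι → ℝ => ENNReal.ofReal (C d ξ ^ 4) :=
        ((hCm d).pow_const 4).ennreal_ofReal
      have h2 := (hlaw d).lintegral_comp (f := fun ξ => ENNReal.ofReal (C d ξ ^ 4)) h1.aemeasurable
      rw [h2]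
      exact hCi d)
  have hcont : ∀ᵐ ω ∂P, ∀ α, Continuous (fun t => b α t ω) := ae_all_iff.2 fun α => (hb α).cont
  have hzero : ∀ᵐ ω ∂P, ∀ α, b α 0 ω = 0 := ae_all_iff.2 fun α => (hb' α).eval_zero_ae_eq_zero
  filter_upwards [hae, hcont, hzero] with ω hω hc hz
  obtain ⟨C0, hC00, hfr⟩ := hω
  refine ⟨C0, hC00, ?_⟩
  obtain ⟨_, hstep, _⟩ := hD E ι A κ 0 (fun α t => b α t ω) hA hc hz
  have hpc := path_cont A (fun α t => b α t ω) hc
  set W := path A (fun α t => b α t ω) with hW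
  intro j x hx
  have hx0 : 0 ≤ x := le_trans (Nat.cast_nonneg j) hx.1
  -- convergence of the discretised oscillation
  have hlim : Tendsto (fun d : ℕ => W (⌊x * ((d + 1 : ℕ) : ℝ)⌋₊ / ((d + 1 : ℕ) : ℝ))) atTop
      (𝓝 (W x)) := by
    apply (hpc.tendsto x).comp
    have h1 := tendsto_nat_floor_mul_div_atTop (R := ℝ) hx0
    exact h1.comp (tendsto_natCast_atTop_atTop.comp (tendsto_add_atTop_nat 1))
  have hlim2 : Tendsto (fun d : ℕ =>
      2 * ‖W (⌊x * ((d + 1 : ℕ) : ℝ)⌋₊ / ((d + 1 : ℕ) : ℝ)) - W j‖ +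
        32 * ‖W (⌊x * ((d + 1 : ℕ) : ℝ)⌋₊ / ((d + 1 : ℕ) : ℝ)) - W j‖ ^ 2) atTop
      (𝓝 (2 * ‖W x - W j‖ + 32 * ‖W x - W j‖ ^ 2)) := by
    have h1 := (hlim.sub_const (W j)).norm
    exact (h1.const_mul 2).add ((h1.pow 2).const_mul 32)
  by_contra hn
  rw [not_le] at hn
  have hev := hlim2.eventually (lt_mem_nhds hn)
  have hev2 : ∀ᶠ d : ℕ in atTop, x ≤ ((d + 1 : ℕ) : ℝ) :=
    (tendsto_natCast_atTop_atTop.comp (tendsto_add_atTop_nat 1)).eventually (eventually_ge_atTop x)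
  obtain ⟨d, hd1, hd2, hd3⟩ := (hfr.and_eventually (hev.and hev2)).exists
  have hd0 : (0 : ℝ) < ((d + 1 : ℕ) : ℝ) := by positivity
  have hcast : (((d + 1) ^ 2 : ℕ) : ℝ) = ((d + 1 : ℕ) : ℝ) * ((d + 1 : ℕ) : ℝ) := by
    push_cast
    ring
  have hjx : (j : ℝ) ≤ x := hx.1
  have s1 := hstep (d + 1) ((d + 1) ^ 2) x (Nat.le_add_left 1 d) hx0 (by
    rw [hcast]
    have := mul_le_mul_of_nonneg_right hd3 hd0.le
    linarith)
  have s2 := hstep (d + 1) ((d + 1) ^ 2) j (Nat.le_add_left 1 d) (Nat.cast_nonneg j) (by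
    rw [hcast]
    have := mul_le_mul_of_nonneg_right (hjx.trans hd3) hd0.le
    linarith)
  have s3 : ((⌊(j : ℝ) * ((d + 1 : ℕ) : ℝ)⌋₊ : ℕ) : ℝ) / ((d + 1 : ℕ) : ℝ) = j := by
    have : (j : ℝ) * ((d + 1 : ℕ) : ℝ) = ((j * (d + 1) : ℕ) : ℝ) := by push_cast; ring
    rw [this, Nat.floor_natCast]
    push_cast
    field_simp
  rw [s3] at s2
  have hr := hCr d (incr (fun α t => b α t ω) (d + 1) ((d + 1) ^ 2)) j x hx
  rw [s1, s2] at hr
  linarith

end Pool.Agent.Y282.SA
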