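import Pool.Agent.Y282.SA.Base

/-!
Project SA (MP_3ced87_pr), job SA-LB: lower bound of the form by local oscillations.
-/

set_option autoImplicit false
set_option linter.unusedSectionVars false

open MeasureTheory Set Filter Topology

namespace Pool.Agent.Y282.SA

open Pool.Agent.Y782.SA

variable {E : Type} [NormedAddCommGroup E] [InnerProductSpace ℝ E] [FiniteDimensional ℝ E]

/-- the elementary inequality behind the local bound -/
theorem key_ineq (a b r u v : ℝ) (ha : 0 ≤ a) (hb : 0 ≤ b) (h1 : a + 16 * a ^ 2 ≤ r)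
    (h2 : b + 16 * b ^ 2 ≤ r) :
    b * v ^ 2 + 2 * ((a + b) * u * v) ≤ u ^ 2 / 4 + r * v ^ 2 := by
  have h3 : b + 4 * (a + b) ^ 2 ≤ r := by
    rcases le_total a b with h | h
    · nlinarith
    · nlinarith
  have h4 : 2 * ((a + b) * u * v) ≤ u ^ 2 / 4 + 4 * (a + b) ^ 2 * v ^ 2 := by
    nlinarith [sq_nonneg (u / 2 - 2 * (a + b) * v)]
  have h5 : (b + 4 * (a + b) ^ 2) * v ^ 2 ≤ r * v ^ 2 :=
    mul_le_mul_of_nonneg_right h3 (sq_nonneg v)
  nlinarith

theorem sym_lin {W : ℝ → E →L[ℝ] E} (hW : GoodW W) (j : ℝ) (x : ℝ) :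
    Sym (W j + (x - j) • (W (j + 1) - W j)) := by
  intro u v
  simp only [ContinuousLinearMap.add_apply, ContinuousLinearMap.smul_apply,
    ContinuousLinearMap.sub_apply, inner_add_left, inner_add_right, inner_smul_left,
    inner_smul_right, inner_sub_left, inner_sub_right]
  rw [hW.sym j u v, hW.sym (j + 1) u v]
  rfl

/-- the inequality on one interval -/
theorem interval_ineq {κ C : ℝ} {W : ℝ → E →L[ℝ] E} (hκ : 0 < κ) (hW : GoodW W)
    (hR : Rough κ C W) {f : ℝ → E} (hf : IsTest f) (j : ℕ) :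
    2 * ∫ x in (j : ℝ)..((j + 1 : ℕ) : ℝ), inner ℝ (deriv f x) (W x (f x)) ≤
      (inner ℝ (W ((j + 1 : ℕ) : ℝ) (f ((j + 1 : ℕ) : ℝ))) (f ((j + 1 : ℕ) : ℝ)) -
        inner ℝ (W (j : ℝ) (f (j : ℝ))) (f (j : ℝ))) +
      ∫ x in (j : ℝ)..((j + 1 : ℕ) : ℝ), (‖deriv f x‖ ^ 2 / 4 + (C + κ * x / 2) * ‖f x‖ ^ 2) := by
  have hj : ((j + 1 : ℕ) : ℝ) = (j : ℝ) + 1 := by push_cast; ring
  rw [hj]
  set Δ : E →L[ℝ] E := W ((j : ℝ) + 1) - W j with hΔ
  set V : ℝ → E →L[ℝ] E := fun x => W j + (x - j) • Δ with hV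
  have hVs : ∀ x, Sym (V x) := fun x => sym_lin hW j x
  have hVd : ∀ x, HasDerivAt V Δ x := by
    intro x
    have h := (((hasDerivAt_id x).sub_const (j : ℝ)).smul_const Δ).const_add (W j)
    rw [one_smul] at h
    exact h
  have hVc : Continuous V := continuous_iff_continuousAt.2 fun x => (hVd x).continuousAt
  have hfc := test_cont hf
  have hfd := test_dcont hf
  set D : ℝ → ℝ := fun x => 2 * inner ℝ (deriv f x) (V x (f x)) + inner ℝ (Δ (f x)) (f x) with hD
  have hDd : ∀ x, HasDerivAt (fun x => inner ℝ (V x (f x)) (f x)) (D x) x := by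
    intro x
    have h1 := (hVd x).clm_apply (test_diff hf x)
    have h2 := h1.inner ℝ (test_diff hf x)
    have h3 : D x = inner ℝ (V x (f x)) (deriv f x) + inner ℝ (Δ (f x) + V x (deriv f x)) (f x) := by
      rw [hD, inner_add_left, hVs x (deriv f x) (f x), real_inner_comm (deriv f x) (V x (f x))]
      ring
    rw [h3]
    exact h2
  have hDc : Continuous D := by
    apply Continuous.add
    · apply continuous_const.mul
      exact hfd.inner (hVc.clm_apply hfc)
    · exact (Δ.continuous.comp hfc).inner hfc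
  have hint : ∫ x in (j : ℝ)..(j : ℝ) + 1, D x =
      inner ℝ (W ((j : ℝ) + 1) (f ((j : ℝ) + 1))) (f ((j : ℝ) + 1)) -
        inner ℝ (W (j : ℝ) (f (j : ℝ))) (f (j : ℝ)) := by
    rw [intervalIntegral.integral_eq_sub_of_hasDerivAt (fun x _ => hDd x)
      (hDc.intervalIntegrable _ _)]
    congr 2
    · simp [hV, hΔ]
    · simp [hV]
  rw [← hint, ← intervalIntegral.integral_const_mul, ← intervalIntegral.integral_add
    (hDc.intervalIntegrable _ _)]
  · apply intervalIntegral.integral_mono_on (by linarith)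
    · exact (mix_int hW hfd hfc _ _ (Nat.cast_nonneg j) (by positivity)).const_mul 2
    · apply Continuous.intervalIntegrable
      apply hDc.add
      apply Continuous.add
      · exact (hfd.norm.pow 2).div_const 4
      · exact (continuous_const.add ((continuous_const.mul continuous_id).div_const 2)).mul
          (hfc.norm.pow 2)
    · intro x hx
      have ha := hR j x hx
      have hb := hR j ((j : ℝ) + 1) ⟨by linarith, le_refl _⟩
      have e1 : inner ℝ (deriv f x) (W x (f x)) = inner ℝ (deriv f x) (V x (f x)) +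
          inner ℝ (deriv f x) ((W x - V x) (f x)) := by
        rw [← inner_add_right, _root_.sub_apply]
        congr 1
        abel
      have e2 : ‖W x - V x‖ ≤ ‖W x - W j‖ + ‖Δ‖ := by
        have : W x - V x = (W x - W j) - (x - j) • Δ := by
          simp only [hV]
          abel
        rw [this]
        refine (norm_sub_le _ _).trans ?_
        have h1 : ‖(x - (j : ℝ)) • Δ‖ ≤ ‖Δ‖ := by
          rw [norm_smul, Real.norm_eq_abs]
          have : |x - (j : ℝ)| ≤ 1 := by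
            rw [abs_le]
            constructor
            · linarith [hx.1]
            · linarith [hx.2]
          calc |x - (j : ℝ)| * ‖Δ‖ ≤ 1 * ‖Δ‖ := mul_le_mul_of_nonneg_right this (norm_nonneg _)
            _ = ‖Δ‖ := one_mul _
        linarith
      have e3 : inner ℝ (deriv f x) ((W x - V x) (f x)) ≤
          (‖W x - W j‖ + ‖Δ‖) * ‖deriv f x‖ * ‖f x‖ := by
        have h1 : inner ℝ (deriv f x) ((W x - V x) (f x)) ≤ ‖deriv f x‖ * ‖(W x - V x) (f x)‖ :=
          real_inner_le_norm _ _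
        have h2 : ‖(W x - V x) (f x)‖ ≤ (‖W x - W j‖ + ‖Δ‖) * ‖f x‖ :=
          ((W x - V x).le_opNorm _).trans (mul_le_mul_of_nonneg_right e2 (norm_nonneg _))
        calc inner ℝ (deriv f x) ((W x - V x) (f x)) ≤ ‖deriv f x‖ * ‖(W x - V x) (f x)‖ := h1
          _ ≤ ‖deriv f x‖ * ((‖W x - W j‖ + ‖Δ‖) * ‖f x‖) :=
            mul_le_mul_of_nonneg_left h2 (norm_nonneg _)
          _ = _ := by ring
      have e4 : - inner ℝ (Δ (f x)) (f x) ≤ ‖Δ‖ * ‖f x‖ ^ 2 := by
        have h1 : |inner ℝ (Δ (f x)) (f x)| ≤ ‖Δ (f x)‖ * ‖f x‖ := abs_real_inner_le_norm _ _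
        have h2 : ‖Δ (f x)‖ ≤ ‖Δ‖ * ‖f x‖ := Δ.le_opNorm _
        have h3 : ‖Δ (f x)‖ * ‖f x‖ ≤ ‖Δ‖ * ‖f x‖ * ‖f x‖ :=
          mul_le_mul_of_nonneg_right h2 (norm_nonneg _)
        have h4 := neg_abs_le (inner ℝ (Δ (f x)) (f x))
        nlinarith
      have e5 := key_ineq ‖W x - W j‖ ‖Δ‖ (C + κ * j / 2) ‖deriv f x‖ ‖f x‖ (norm_nonneg _)
        (norm_nonneg _) ha hb
      have e6 : (C + κ * j / 2) * ‖f x‖ ^ 2 ≤ (C + κ * x / 2) * ‖f x‖ ^ 2 := by
        apply mul_le_mul_of_nonneg_right _ (sq_nonneg _)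
        have := mul_le_mul_of_nonneg_left hx.1 hκ.le
        linarith
      show 2 * inner ℝ (deriv f x) (W x (f x)) ≤ D x +
        (‖deriv f x‖ ^ 2 / 4 + (C + κ * x / 2) * ‖f x‖ ^ 2)
      rw [hD, e1]
      linarith
  · apply Continuous.intervalIntegrable
    apply Continuous.add
    · exact (hfd.norm.pow 2).div_const 4
    · exact (continuous_const.add ((continuous_const.mul continuous_id).div_const 2)).mul
        (hfc.norm.pow 2)

/-- the boundary value -/
theorem bd_ineq {f : ℝ → E} (hf : IsTest f) (s : ℝ) (hs : 0 ≤ s) :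
    s * ‖f 0‖ ^ 2 ≤ dsq f / 4 + 4 * s ^ 2 * nsq f := by
  obtain ⟨J, hJ, h0⟩ := test_supp hf
  have hfc := test_cont hf
  have hfd := test_dcont hf
  have hd : dsq f = ∫ x in (0 : ℝ)..J, ‖deriv f x‖ ^ 2 :=
    ioi_eq fun x hx => by rw [(h0 x hx.le).2]; simp
  have hn : nsq f = ∫ x in (0 : ℝ)..J, ‖f x‖ ^ 2 :=
    ioi_eq fun x hx => by rw [(h0 x hx.le).1]; simp
  have hder : ∀ x, HasDerivAt (fun x => inner ℝ (f x) (f x))
      (inner ℝ (f x) (deriv f x) + inner ℝ (deriv f x) (f x)) x := fun x =>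
    (test_diff hf x).inner ℝ (test_diff hf x)
  have hc : Continuous fun x => inner ℝ (f x) (deriv f x) + inner ℝ (deriv f x) (f x) :=
    (hfc.inner hfd).add (hfd.inner hfc)
  have h1 := intervalIntegral.integral_eq_sub_of_hasDerivAt (a := (0 : ℝ)) (b := J)
    (fun x _ => hder x) (hc.intervalIntegrable _ _)
  have h2 : ‖f 0‖ ^ 2 = - ∫ x in (0 : ℝ)..J, (inner ℝ (f x) (deriv f x) + inner ℝ (deriv f x) (f x)) := by
    rw [h1, (h0 J le_rfl).1, real_inner_self_eq_norm_sq, real_inner_self_eq_norm_sq]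
    simp
  rw [h2, hd, hn, ← intervalIntegral.integral_neg, ← intervalIntegral.integral_const_mul,
    ← intervalIntegral.integral_const_mul, ← intervalIntegral.integral_div,
    ← intervalIntegral.integral_add]
  · apply intervalIntegral.integral_mono_on (Nat.cast_nonneg J)
    · exact (continuous_const.mul hc.neg).intervalIntegrable _ _
    · exact (((hfd.norm.pow 2).div_const 4).add
        (continuous_const.mul (hfc.norm.pow 2))).intervalIntegrable _ _
    · intro x _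
      have a1 : |inner ℝ (f x) (deriv f x)| ≤ ‖f x‖ * ‖deriv f x‖ := abs_real_inner_le_norm _ _
      have a2 := neg_abs_le (inner ℝ (f x) (deriv f x))
      rw [real_inner_comm (f x) (deriv f x)]
      have a3 : -(inner ℝ (f x) (deriv f x) + inner ℝ (f x) (deriv f x)) ≤
          2 * (‖f x‖ * ‖deriv f x‖) := by linarith
      have a4 := mul_le_mul_of_nonneg_left a3 hs
      nlinarith [sq_nonneg (‖deriv f x‖ / 2 - 2 * s * ‖f x‖)]
  · exact ((hfd.norm.pow 2).div_const 4).intervalIntegrable _ _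
  · exact (continuous_const.mul (hfc.norm.pow 2)).intervalIntegrable _ _

theorem lb : S_LB := by
  intro E _ _ _ κ C S W hκ hW hR f hf
  obtain ⟨J, hJ, h0⟩ := test_supp hf
  have hfc := test_cont hf
  have hfd := test_dcont hf
  have hd : dsq f = ∫ x in (0 : ℝ)..J, ‖deriv f x‖ ^ 2 :=
    ioi_eq fun x hx => by rw [(h0 x hx.le).2]; simp
  have hn : nsq f = ∫ x in (0 : ℝ)..J, ‖f x‖ ^ 2 :=
    ioi_eq fun x hx => by rw [(h0 x hx.le).1]; simp
  have hx : xsq f = ∫ x in (0 : ℝ)..J, x * ‖f x‖ ^ 2 :=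
    ioi_eq fun x hx => by rw [(h0 x hx.le).1]; simp
  have hw : ∫ x in Ioi (0 : ℝ), inner ℝ (deriv f x) (W x (f x)) =
      ∫ x in (0 : ℝ)..J, inner ℝ (deriv f x) (W x (f x)) :=
    ioi_eq fun x hx => by rw [(h0 x hx.le).1]; simp
  -- summation over the intervals
  have hsum1 : ∫ x in (0 : ℝ)..J, inner ℝ (deriv f x) (W x (f x)) =
      ∑ j ∈ Finset.range J, ∫ x in (j : ℝ)..((j + 1 : ℕ) : ℝ), inner ℝ (deriv f x) (W x (f x)) := by
    have := intervalIntegral.sum_integral_adjacent_intervals (a := fun j : ℕ => (j : ℝ)) (n := J)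
      (f := fun x => inner ℝ (deriv f x) (W x (f x))) (μ := volume)
      (fun j _ => mix_int hW hfd hfc _ _ (Nat.cast_nonneg j) (Nat.cast_nonneg (j + 1)))
    rw [this]
    simp
  have hcont : Continuous fun x => ‖deriv f x‖ ^ 2 / 4 + (C + κ * x / 2) * ‖f x‖ ^ 2 :=
    ((hfd.norm.pow 2).div_const 4).add
      ((continuous_const.add ((continuous_const.mul continuous_id).div_const 2)).mul (hfc.norm.pow 2))
  have hsum2 : ∫ x in (0 : ℝ)..J, (‖deriv f x‖ ^ 2 / 4 + (C + κ * x / 2) * ‖f x‖ ^ 2) =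
      ∑ j ∈ Finset.range J, ∫ x in (j : ℝ)..((j + 1 : ℕ) : ℝ),
        (‖deriv f x‖ ^ 2 / 4 + (C + κ * x / 2) * ‖f x‖ ^ 2) := by
    have := intervalIntegral.sum_integral_adjacent_intervals (a := fun j : ℕ => (j : ℝ)) (n := J)
      (f := fun x => ‖deriv f x‖ ^ 2 / 4 + (C + κ * x / 2) * ‖f x‖ ^ 2) (μ := volume)
      (fun j _ => hcont.intervalIntegrable _ _)
    rw [this]
    simp
  have hsum3 : ∑ j ∈ Finset.range J,
      (inner ℝ (W ((j + 1 : ℕ) : ℝ) (f ((j + 1 : ℕ) : ℝ))) (f ((j + 1 : ℕ) : ℝ)) -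
        inner ℝ (W (j : ℝ) (f (j : ℝ))) (f (j : ℝ))) = 0 := by
    rw [Finset.sum_range_sub (fun j : ℕ => inner ℝ (W (j : ℝ) (f (j : ℝ))) (f (j : ℝ)))]
    rw [(h0 J le_rfl).1, Nat.cast_zero, hW.zero]
    simp
  have hmain : 2 * ∫ x in (0 : ℝ)..J, inner ℝ (deriv f x) (W x (f x)) ≤
      ∫ x in (0 : ℝ)..J, (‖deriv f x‖ ^ 2 / 4 + (C + κ * x / 2) * ‖f x‖ ^ 2) := by
    rw [hsum1, hsum2, Finset.mul_sum]
    have := Finset.sum_le_sum (fun j (_ : j ∈ Finset.range J) =>
      interval_ineq (κ := κ) (C := C) hκ hW hR hf j)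
    rw [Finset.sum_add_distrib, hsum3, zero_add] at this
    exact this
  have hsplit : ∫ x in (0 : ℝ)..J, (‖deriv f x‖ ^ 2 / 4 + (C + κ * x / 2) * ‖f x‖ ^ 2) =
      dsq f / 4 + C * nsq f + κ / 2 * xsq f := by
    rw [hd, hn, hx, ← intervalIntegral.integral_div, ← intervalIntegral.integral_const_mul,
      ← intervalIntegral.integral_const_mul, ← intervalIntegral.integral_add,
      ← intervalIntegral.integral_add]
    · apply intervalIntegral.integral_congr
      intro x _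
      simp only
      ring
    · exact (((hfd.norm.pow 2).div_const 4).add
        (continuous_const.mul (hfc.norm.pow 2))).intervalIntegrable _ _
    · exact (continuous_const.mul (continuous_id.mul (hfc.norm.pow 2))).intervalIntegrable _ _
    · exact ((hfd.norm.pow 2).div_const 4).intervalIntegrable _ _
    · exact (continuous_const.mul (hfc.norm.pow 2)).intervalIntegrable _ _
  have hb := bd_ineq hf ‖S‖ (norm_nonneg _)
  have hS : -(‖S‖ * ‖f 0‖ ^ 2) ≤ inner ℝ (S (f 0)) (f 0) := by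
    have h1 : |inner ℝ (S (f 0)) (f 0)| ≤ ‖S (f 0)‖ * ‖f 0‖ := abs_real_inner_le_norm _ _
    have h2 : ‖S (f 0)‖ ≤ ‖S‖ * ‖f 0‖ := S.le_opNorm _
    have h3 : ‖S (f 0)‖ * ‖f 0‖ ≤ ‖S‖ * ‖f 0‖ * ‖f 0‖ :=
      mul_le_mul_of_nonneg_right h2 (norm_nonneg _)
    have h4 := neg_abs_le (inner ℝ (S (f 0)) (f 0))
    nlinarith
  unfold form
  rw [hw]
  rw [hsplit] at hmain
  nlinarith

end Pool.Agent.Y282.SA
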